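import Mathlib
import Pool.Agent.P.MP_e3a7ef_co.Defs

-- part Pool.Agent.P.MP_e3a7ef_co.Cauchy
section

namespace Pool.Agent.P.MP_e3a7ef_co

open Complex Metric Set
open scoped Real

/-- Cauchy estimate for the second difference. -/
theorem second_diff_le {f : ℂ → ℂ} {c : ℂ} {ρ M : ℝ} (hρ : 1 < ρ)
    (hf : DifferentiableOn ℂ f (closedBall c ρ)) (hM : ∀ w ∈ sphere c ρ, ‖f w‖ ≤ M) :
    ‖f (c + 1) + f (c - 1) - 2 * f c‖ ≤ 2 * M / (ρ ^ 2 - 1) := by
  have hρ0 : 0 < ρ := by linarith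
  have hd : DiffContOnCl ℂ f (ball c ρ) := by
    refine DifferentiableOn.diffContOnCl ?_
    rwa [closure_ball c hρ0.ne']
  have hc : ContinuousOn f (sphere c ρ) := hf.continuousOn.mono sphere_subset_closedBall
  have h1 := hd.two_pi_i_inv_smul_circleIntegral_sub_inv_smul (w := c + 1) (by simpa using hρ)
  have h2 := hd.two_pi_i_inv_smul_circleIntegral_sub_inv_smul (w := c - 1) (by simpa using hρ)
  have h3 := hd.two_pi_i_inv_smul_circleIntegral_sub_inv_smul (w := c) (by simpa using hρ0)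
  have hne : ∀ a : ℂ, ‖a‖ ≤ 1 → ∀ w ∈ sphere c ρ, w - (c + a) ≠ 0 := by
    intro a ha w hw h
    have : w - c = a := by linear_combination h
    rw [mem_sphere_iff_norm, this] at hw
    linarith
  have hi : ∀ a : ℂ, ‖a‖ ≤ 1 → CircleIntegrable (fun w => (w - (c + a))⁻¹ • f w) c ρ := by
    intro a ha
    have : ContinuousOn (fun w : ℂ => (w - (c + a))⁻¹) (sphere c ρ) :=
      (continuousOn_id.sub continuousOn_const).inv₀ (hne a ha)
    exact ContinuousOn.circleIntegrable hρ0.le (this.fun_smul hc)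
  have i1 := hi 1 (by simp)
  have i2 := hi (-1) (by simp)
  have i3 := hi 0 (by simp)
  rw [← sub_eq_add_neg] at i2
  rw [add_zero] at i3
  have key : f (c + 1) + f (c - 1) - 2 * f c = (2 * π * I : ℂ)⁻¹ • ∮ w in C(c, ρ),
      (((w - (c + 1))⁻¹ • f w + (w - (c - 1))⁻¹ • f w) -
        ((w - c)⁻¹ • f w + (w - c)⁻¹ • f w)) := by
    have j1 : CircleIntegrable (fun w => (w - (c + 1))⁻¹ • f w + (w - (c - 1))⁻¹ • f w) c ρ :=
      i1.add i2
    have j2 : CircleIntegrable (fun w => (w - c)⁻¹ • f w + (w - c)⁻¹ • f w) c ρ := i3.add i3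
    rw [circleIntegral.integral_sub j1 j2, circleIntegral.integral_add i1 i2,
      circleIntegral.integral_add i3 i3, smul_sub, smul_add, smul_add, h1, h2, h3]
    ring
  rw [key]
  have hpos : 0 < ρ ^ 2 - 1 := by nlinarith
  refine (circleIntegral.norm_two_pi_i_inv_smul_integral_le_of_norm_le_const
    (C := 2 * M / (ρ * (ρ ^ 2 - 1))) hρ0.le fun w hw => ?_).trans (le_of_eq (by field_simp))
  have e1 := hne 1 (by simp) w hw
  have e2 := hne (-1) (by simp) w hw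
  have e3 := hne 0 (by simp) w hw
  rw [← sub_eq_add_neg] at e2
  rw [add_zero] at e3
  have e4 : (w - c) ^ 2 - 1 = (w - (c + 1)) * (w - (c - 1)) := by ring
  have e5 : ((w - (c + 1))⁻¹ • f w + (w - (c - 1))⁻¹ • f w) -
      ((w - c)⁻¹ • f w + (w - c)⁻¹ • f w) = 2 * f w / ((w - c) * ((w - c) ^ 2 - 1)) := by
    rw [e4]
    simp only [smul_eq_mul]
    field_simp
    ring
  have hn : ‖w - c‖ = ρ := mem_sphere_iff_norm.1 hw
  have e6 : ρ ^ 2 - 1 ≤ ‖(w - c) ^ 2 - 1‖ := by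
    have := norm_sub_norm_le ((w - c) ^ 2) 1
    rwa [norm_pow, hn, norm_one] at this
  rw [e5, norm_div, norm_mul, norm_mul, hn, Complex.norm_two]
  have hM0 : 0 ≤ M := (norm_nonneg _).trans (hM w hw)
  gcongr
  exact hM w hw

theorem norm_log_one_add_le_54 {z : ℂ} (hz : ‖z‖ ≤ 1 / 3) : ‖log (1 + z)‖ ≤ 5 / 4 * ‖z‖ := by
  have h1 : ‖z‖ < 1 := by linarith
  refine (norm_log_one_add_le h1).trans ?_
  have h2 : (1 - ‖z‖)⁻¹ ≤ 3 / 2 := by
    rw [inv_le_comm₀ (by linarith) (by norm_num)]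
    linarith
  have h3 : 0 ≤ ‖z‖ := norm_nonneg _
  have h4 : ‖z‖ * (1 - ‖z‖)⁻¹ ≤ 1 / 2 := by
    calc ‖z‖ * (1 - ‖z‖)⁻¹ ≤ 1 / 3 * (3 / 2) := by
          gcongr
      _ = 1 / 2 := by norm_num
  nlinarith

theorem one_add_mem_slitPlane {z : ℂ} (hz : ‖z‖ < 1) : 1 + z ∈ slitPlane :=
  mem_slitPlane_of_norm_lt_one hz

theorem sinh_bound {w : ℂ} (hw : ‖w‖ ≤ 1) :
    ‖exp w - exp (-w) - 2 * w‖ ≤ 7 / 16 * ‖w‖ ^ 3 := by
  have h1 := Complex.exp_bound hw (n := 4) (by norm_num)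
  have h2 := Complex.exp_bound (x := -w) (by simpa using hw) (n := 4) (by norm_num)
  simp only [Finset.sum_range_succ, Finset.sum_range_zero, Nat.factorial, norm_neg] at h1 h2
  norm_num at h1 h2
  have e : exp w - exp (-w) - 2 * w = (exp w - (1 + w + w ^ 2 / 2 + w ^ 3 / 6)) -
      (exp (-w) - (1 + -w + w ^ 2 / 2 + (-w) ^ 3 / 6)) + w ^ 3 / 3 := by ring
  have h3 : ‖w ^ 3 / 3‖ = ‖w‖ ^ 3 / 3 := by simp
  have h4 : ‖w‖ ^ 4 ≤ ‖w‖ ^ 3 := pow_le_pow_of_le_one (norm_nonneg _) hw (by norm_num)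
  rw [e]
  refine (norm_add_le _ _).trans ?_
  have h5 := norm_sub_le (exp w - (1 + w + w ^ 2 / 2 + w ^ 3 / 6))
    (exp (-w) - (1 + -w + w ^ 2 / 2 + (-w) ^ 3 / 6))
  linarith

/-- Propagation of relative errors through one step of the recursion. -/
theorem perturb {E0 E1 E2 q0 q1 q2 : ℂ} {B e : ℝ} (hB : 1 ≤ B) (he : 0 ≤ e) (hBe : B * e ≤ 1 / 100)
    (n0 : E0 - 1 ≠ 0) (n1 : E1 - 1 ≠ 0) (n2 : E2 - 1 ≠ 0)
    (b0 : ‖E0‖ ≤ B * ‖E0 - 1‖) (b1 : ‖E1‖ ≤ B * ‖E1 - 1‖) (b2 : ‖E2‖ ≤ B * ‖E2 - 1‖)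
    (h0 : ‖q0 - E0‖ ≤ e * ‖E0‖) (h1 : ‖q1 - E1‖ ≤ e * ‖E1‖) (h2 : ‖q2 - E2‖ ≤ e * ‖E2‖)
    (hE : E1 ≠ 0) :
    ‖q1 ^ 2 * (q0 - 1) * (q2 - 1) / (q1 - 1) ^ 2 - E1 ^ 2 * (E0 - 1) * (E2 - 1) / (E1 - 1) ^ 2‖ ≤
      7 * B * e * ‖E1 ^ 2 * (E0 - 1) * (E2 - 1) / (E1 - 1) ^ 2‖ := by
  have rel : ∀ {E q : ℂ}, E - 1 ≠ 0 → ‖E‖ ≤ B * ‖E - 1‖ → ‖q - E‖ ≤ e * ‖E‖ →
      ∃ u : ℂ, ‖u‖ ≤ B * e ∧ q - 1 = (E - 1) * (1 + u) := by
    intro E q n b h
    refine ⟨(q - E) / (E - 1), ?_, by field_simp; ring⟩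
    rw [norm_div, div_le_iff₀ (norm_pos_iff.2 n)]
    calc ‖q - E‖ ≤ e * ‖E‖ := h
      _ ≤ e * (B * ‖E - 1‖) := by gcongr
      _ = _ := by ring
  obtain ⟨u0, a0, c0⟩ := rel n0 b0 h0
  obtain ⟨u1, a1, c1⟩ := rel n1 b1 h1
  obtain ⟨u2, a2, c2⟩ := rel n2 b2 h2
  obtain ⟨u, a, c⟩ : ∃ u : ℂ, ‖u‖ ≤ B * e ∧ q1 = E1 * (1 + u) := by
    refine ⟨(q1 - E1) / E1, ?_, by field_simp; ring⟩
    rw [norm_div, div_le_iff₀ (norm_pos_iff.2 hE)]
    refine h1.trans ?_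
    have := norm_nonneg E1
    have : e ≤ B * e := by nlinarith
    gcongr
  set t := B * e with ht
  have t0 : 0 ≤ t := by positivity
  have l1 : 99 / 100 ≤ ‖1 + u1‖ := by
    have := norm_sub_norm_le (1 : ℂ) (-u1)
    simp only [norm_one, norm_neg, sub_neg_eq_add] at this
    linarith
  have n3 : 1 + u1 ≠ 0 := by
    intro h
    rw [h, norm_zero] at l1
    norm_num at l1
  have e1 : q1 ^ 2 * (q0 - 1) * (q2 - 1) / (q1 - 1) ^ 2 -
      E1 ^ 2 * (E0 - 1) * (E2 - 1) / (E1 - 1) ^ 2 =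
      (((1 + u) ^ 2 * (1 + u0) * (1 + u2) - 1) - ((1 + u1) ^ 2 - 1)) / (1 + u1) ^ 2 *
        (E1 ^ 2 * (E0 - 1) * (E2 - 1) / (E1 - 1) ^ 2) := by
    rw [c0, c1, c2]
    nth_rewrite 1 [c]
    field_simp
    ring
  have mulb : ∀ {x y : ℂ} {s r : ℝ}, ‖x - 1‖ ≤ s → ‖y - 1‖ ≤ r → ‖x * y - 1‖ ≤ s + r + s * r := by
    intro x y s r hx hy
    have : x * y - 1 = (x - 1) + (y - 1) + (x - 1) * (y - 1) := by ring
    rw [this]
    refine (norm_add_le _ _).trans (add_le_add ((norm_add_le _ _).trans (add_le_add hx hy)) ?_)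
    rw [norm_mul]
    exact mul_le_mul hx hy (norm_nonneg _) ((norm_nonneg _).trans hx)
  have p : ‖1 + u - 1‖ ≤ t := by simpa using a
  have p0 : ‖1 + u0 - 1‖ ≤ t := by simpa using a0
  have p1 : ‖1 + u1 - 1‖ ≤ t := by simpa using a1
  have p2 : ‖1 + u2 - 1‖ ≤ t := by simpa using a2
  have tt : t * t ≤ t / 100 := by nlinarith
  have q1' : ‖(1 + u) * (1 + u) - 1‖ ≤ 201 / 100 * t := (mulb p p).trans (by linarith)
  have q2' : ‖(1 + u) * (1 + u) * (1 + u0) - 1‖ ≤ 304 / 100 * t :=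
    (mulb q1' p0).trans (by nlinarith)
  have q3' : ‖(1 + u) * (1 + u) * (1 + u0) * (1 + u2) - 1‖ ≤ 408 / 100 * t :=
    (mulb q2' p2).trans (by nlinarith)
  have q4' : ‖(1 + u1) * (1 + u1) - 1‖ ≤ 201 / 100 * t := (mulb p1 p1).trans (by linarith)
  rw [e1, norm_mul]
  gcongr
  rw [norm_div, norm_pow, div_le_iff₀ (by positivity)]
  have := norm_sub_le ((1 + u) ^ 2 * (1 + u0) * (1 + u2) - 1) ((1 + u1) ^ 2 - 1)
  rw [pow_two, pow_two] at this
  have l2 : 98 / 100 ≤ ‖1 + u1‖ ^ 2 := by nlinarith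
  rw [pow_two (1 + u), pow_two (1 + u1), mul_assoc 7]
  nlinarith

end Pool.Agent.P.MP_e3a7ef_co
end

-- part Pool.Agent.P.MP_e3a7ef_co.Step
section

namespace Pool.Agent.P.MP_e3a7ef_co

open Complex Metric Set

/-- Exterior of a disc. -/
def U (R : ℝ) : Set ℂ := {z | R < ‖z‖}

theorem U_mono {R R' : ℝ} (h : R ≤ R') : U R' ⊆ U R := fun _ hz => lt_of_le_of_lt h hz

theorem mem_U_add {R R' : ℝ} {z a : ℂ} (hz : z ∈ U R') (h : R + ‖a‖ ≤ R') : z + a ∈ U R := by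
  have := norm_sub_norm_le z (-a)
  simp only [norm_neg, sub_neg_eq_add] at this
  have hz' : R' < ‖z‖ := hz
  change R < ‖z + a‖
  linarith

/-- The next level built from a logarithm `L` of the normalised `exp G - 1`. -/
noncomputable def nextG (κ : ℕ) (G L : ℂ → ℂ) (z : ℂ) : ℂ :=
  2 * G z - κ * log (1 + -(1 / z ^ 2)) + (L (z + 1) + L (z - 1) - 2 * L z)

theorem assemble {G L : ℂ → ℂ} {κ : ℕ} {c : ℂ} {R R' μ D : ℝ} (hR : 0 < R) (hc : c ≠ 0)
    (hG : DifferentiableOn ℂ G (U R)) (hL : DifferentiableOn ℂ L (U R))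
    (hid : ∀ z ∈ U R, exp (G z) - 1 = c * exp (L z) / z ^ κ)
    (hμ : 0 ≤ μ) (hLb : ∀ z ∈ U R, ‖L z‖ ≤ μ / ‖z‖ ^ 2) (hRR : R ≤ R') (h101 : 101 ≤ (R' - R) ^ 2)
    (hD : 101 / 100 * R' ^ 4 ≤ D * ((R' - R) ^ 2 * R ^ 2)) :
    DifferentiableOn ℂ (nextG κ G L) (U R') ∧
    (∀ z ∈ U R', exp (nextG κ G L z) =
      exp (G z) ^ 2 * (exp (G (z - 1)) - 1) * (exp (G (z + 1)) - 1) / (exp (G z) - 1) ^ 2) ∧
    ∀ z ∈ U R', ‖nextG κ G L z - 2 * G z - κ / z ^ 2‖ ≤ (κ + 2 * D * μ) / ‖z‖ ^ 4 := by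
  have h10 : R + 10 ≤ R' := by nlinarith
  have hp : ∀ z ∈ U R', z + 1 ∈ U R := fun z hz => mem_U_add hz (by simp; linarith)
  have hm : ∀ z ∈ U R', z - 1 ∈ U R := fun z hz => by
    rw [sub_eq_add_neg]
    exact mem_U_add hz (by simp; linarith)
  have hz0 : ∀ z ∈ U R, z ≠ 0 := fun z hz h => by
    have : R < ‖z‖ := hz
    rw [h, norm_zero] at this
    linarith
  have hw : ∀ z ∈ U R', ‖-(1 / z ^ 2)‖ ≤ 1 / 100 := fun z hz => by
    have : R' < ‖z‖ := hz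
    rw [norm_neg, norm_div, norm_one, norm_pow]
    exact one_div_le_one_div_of_le (by norm_num) (by nlinarith)
  have hsub : U R' ⊆ U R := U_mono hRR
  refine ⟨?_, fun z hz => ?_, fun z hz => ?_⟩
  · unfold nextG
    have d1 : DifferentiableOn ℂ (fun z : ℂ => log (1 + -(1 / z ^ 2))) (U R') := by
      refine DifferentiableOn.clog ?_ fun z hz =>
        one_add_mem_slitPlane (lt_of_le_of_lt (hw z hz) (by norm_num))
      refine (differentiableOn_const _).add (DifferentiableOn.neg ?_)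
      exact (differentiableOn_const _).div (differentiableOn_id.pow 2)
        fun z hz => pow_ne_zero 2 (hz0 z (hsub hz))
    have d2 : DifferentiableOn ℂ (fun z : ℂ => L (z + 1)) (U R') :=
      hL.comp (differentiableOn_id.add_const 1) hp
    have d3 : DifferentiableOn ℂ (fun z : ℂ => L (z - 1)) (U R') :=
      hL.comp (differentiableOn_id.sub_const 1) hm
    exact (((hG.mono hsub).const_mul 2).sub (d1.const_mul _)).add
      ((d2.add d3).sub ((hL.mono hsub).const_mul 2))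
  · have n0 := hz0 z (hsub hz)
    have n1 := hz0 _ (hp z hz)
    have n2 := hz0 _ (hm z hz)
    have n3 : 1 + -(1 / z ^ 2) ≠ 0 :=
      slitPlane_ne_zero (one_add_mem_slitPlane (lt_of_le_of_lt (hw z hz) (by norm_num)))
    have e3 : 1 + -(1 / z ^ 2) = (z + 1) * (z - 1) / z ^ 2 := by
      field_simp
      ring
    rw [hid _ (hp z hz), hid _ (hm z hz), hid _ (hsub hz)]
    unfold nextG
    rw [exp_add, exp_sub, exp_sub, exp_add, exp_nat_mul, exp_log n3, two_mul, two_mul, exp_add,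
      exp_add, e3, div_pow, mul_pow, ← pow_mul, mul_comm 2 κ, pow_mul]
    have := exp_ne_zero (L z)
    field_simp
  · have hzR : R' < ‖z‖ := hz
    have hR' : 0 < R' := by linarith
    have hzp : 0 < ‖z‖ := by linarith
    set ρ := (R' - R) / R' * ‖z‖ with hρ
    have hρ1 : R' - R ≤ ρ := by
      rw [hρ, div_mul_eq_mul_div, le_div_iff₀ hR']
      nlinarith
    have hball : ∀ w ∈ closedBall z ρ, R / R' * ‖z‖ ≤ ‖w‖ := by
      intro w hw
      rw [mem_closedBall_iff_norm'] at hw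
      have := norm_sub_norm_le z w
      have e : R / R' * ‖z‖ = ‖z‖ - ρ := by
        rw [hρ]
        field_simp
        ring
      linarith
    have hlt : R < R / R' * ‖z‖ := by
      rw [div_mul_eq_mul_div, lt_div_iff₀ hR']
      nlinarith
    have hcb : closedBall z ρ ⊆ U R := fun w hw => lt_of_lt_of_le hlt (hball w hw)
    have hC := second_diff_le (M := μ / (R / R' * ‖z‖) ^ 2) (show 1 < ρ by linarith) (hL.mono hcb)
      (fun w hw => (hLb w (hcb (sphere_subset_closedBall hw))).trans (by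
        gcongr
        exact hball w (sphere_subset_closedBall hw)))
    have hρ2 : 101 ≤ ρ ^ 2 := h101.trans (by gcongr)
    have hC2 : 2 * (μ / (R / R' * ‖z‖) ^ 2) / (ρ ^ 2 - 1) ≤ 2 * D * μ / ‖z‖ ^ 4 := by
      have h1 : ρ ^ 2 / (101 / 100) ≤ ρ ^ 2 - 1 := by linarith
      have hRR' : 0 < R' - R := by linarith
      calc 2 * (μ / (R / R' * ‖z‖) ^ 2) / (ρ ^ 2 - 1)
          ≤ 2 * (μ / (R / R' * ‖z‖) ^ 2) / (ρ ^ 2 / (101 / 100)) := by gcongr
        _ = 2 * (101 / 100 * R' ^ 4 / ((R' - R) ^ 2 * R ^ 2)) * μ / ‖z‖ ^ 4 := by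
            rw [hρ]
            field_simp
        _ ≤ 2 * D * μ / ‖z‖ ^ 4 := by
            gcongr
            rw [div_le_iff₀ (by positivity)]
            exact hD
    have hlog : ‖log (1 + -(1 / z ^ 2)) - -(1 / z ^ 2)‖ ≤ 1 / ‖z‖ ^ 4 := by
      have h1 := hw z hz
      refine (norm_log_one_add_sub_self_le (lt_of_le_of_lt h1 (by norm_num))).trans ?_
      have h2 : (1 - ‖-(1 / z ^ 2)‖)⁻¹ ≤ 2 := by
        rw [inv_le_comm₀ (by linarith) (by norm_num)]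
        linarith
      have h3 : ‖-(1 / z ^ 2)‖ ^ 2 = 1 / ‖z‖ ^ 4 := by
        rw [norm_neg, norm_div, norm_one, norm_pow]
        field_simp
      rw [h3]
      have : 0 ≤ 1 / ‖z‖ ^ 4 := by positivity
      nlinarith
    have e : nextG κ G L z - 2 * G z - κ / z ^ 2 =
        -(κ * (log (1 + -(1 / z ^ 2)) - -(1 / z ^ 2))) + (L (z + 1) + L (z - 1) - 2 * L z) := by
      unfold nextG
      ring
    rw [e, add_div]
    refine (norm_add_le _ _).trans (add_le_add ?_ (hC.trans hC2))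
    rw [norm_neg, norm_mul, Complex.norm_natCast, div_eq_mul_one_div (κ : ℝ)]
    gcongr

/-- The logarithm of the normalised `exp G - 1` at levels at least one. -/
noncomputable def logS (α : ℝ) (G : ℂ → ℂ) (z : ℂ) : ℂ :=
  G z / 2 + log (1 + (z ^ 2 * (exp (G z / 2) - exp (-(G z / 2))) / α - 1))

theorem norm_G_le {g z : ℂ} {α b R : ℝ} (hα : 0 < α) (hR : 0 < R) (hz : R < ‖z‖)
    (hb : b ≤ R ^ 2 / 10) (h : ‖g - α / z ^ 2‖ ≤ α * b / ‖z‖ ^ 4) :
    ‖g - α / z ^ 2‖ ≤ α / ‖z‖ ^ 2 / 10 := by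
  refine h.trans ?_
  have hzp : 0 < ‖z‖ := by linarith
  have : b ≤ ‖z‖ ^ 2 / 10 := hb.trans (by gcongr)
  calc α * b / ‖z‖ ^ 4 ≤ α * (‖z‖ ^ 2 / 10) / ‖z‖ ^ 4 := by gcongr
    _ = _ := by field_simp

theorem sinh_step {G : ℂ → ℂ} {α b R : ℝ} (hα : 0 < α) (hR : 0 < R) 
    (hb : b ≤ R ^ 2 / 10) (hαR : α ≤ 17 / 10 * R ^ 2) (hG : DifferentiableOn ℂ G (U R))
    (hGb : ∀ z ∈ U R, ‖G z - α / z ^ 2‖ ≤ α * b / ‖z‖ ^ 4) :
    DifferentiableOn ℂ (logS α G) (U R) ∧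
    (∀ z ∈ U R, exp (G z) - 1 = α * exp (logS α G z) / z ^ 2) ∧
    (∀ z ∈ U R, ‖logS α G z‖ ≤ (71 / 100 * α + 5 / 4 * b) / ‖z‖ ^ 2) ∧
    ∀ z ∈ U R, ‖exp (G z)‖ ≤ 4 * ‖z‖ ^ 2 / α * ‖exp (G z) - 1‖ := by
  have hαc : (α : ℂ) ≠ 0 := ofReal_ne_zero.2 hα.ne'
  have key : ∀ z ∈ U R, z ≠ 0 ∧ ‖G z‖ ≤ 11 / 10 * α / ‖z‖ ^ 2 ∧ ‖G z‖ ≤ 187 / 100 ∧
      ‖z ^ 2 * (exp (G z / 2) - exp (-(G z / 2))) / α - 1‖ ≤ (b + 124 / 1000 * α) / ‖z‖ ^ 2 ∧
      (b + 124 / 1000 * α) / ‖z‖ ^ 2 ≤ 311 / 1000 := by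
    intro z hz
    have hz' : R < ‖z‖ := hz
    have hzp : 0 < ‖z‖ := by linarith
    have hz0 : z ≠ 0 := norm_pos_iff.1 hzp
    have hz2 : R ^ 2 ≤ ‖z‖ ^ 2 := by gcongr
    have h1 := norm_G_le hα hR hz' hb (hGb z hz)
    have h2 : ‖(α : ℂ) / z ^ 2‖ = α / ‖z‖ ^ 2 := by
      rw [norm_div, norm_pow, norm_real, Real.norm_of_nonneg hα.le]
    have h3 : ‖G z‖ ≤ 11 / 10 * α / ‖z‖ ^ 2 := by
      have := norm_add_le (G z - α / z ^ 2) (α / z ^ 2)
      rw [sub_add_cancel, h2] at this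
      rw [mul_div_assoc]
      linarith
    have h4 : α / ‖z‖ ^ 2 ≤ 17 / 10 := by
      rw [div_le_iff₀ (by positivity)]
      linarith
    have h5 : ‖G z‖ ≤ 187 / 100 := by
      rw [mul_div_assoc] at h3
      linarith
    refine ⟨hz0, h3, h5, ?_, ?_⟩
    · have h6 : ‖G z / 2‖ = ‖G z‖ / 2 := by simp
      have h7 := sinh_bound (w := G z / 2) (by rw [h6]; linarith)
      have e : z ^ 2 * (exp (G z / 2) - exp (-(G z / 2))) / α - 1 =
          z ^ 2 / α * ((exp (G z / 2) - exp (-(G z / 2)) - 2 * (G z / 2)) + (G z - α / z ^ 2)) := by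
        field_simp
        ring
      have h8 : ‖z ^ 2 / α‖ = ‖z‖ ^ 2 / α := by
        rw [norm_div, norm_pow, norm_real, Real.norm_of_nonneg hα.le]
      have h9 : 7 / 16 * ‖G z / 2‖ ^ 3 ≤ 124 / 1000 * (α / ‖z‖ ^ 2) ^ 2 := by
        rw [h6]
        have a1 : ‖G z‖ ^ 2 ≤ (11 / 10 * (α / ‖z‖ ^ 2)) ^ 2 := by
          rw [← mul_div_assoc]
          gcongr
        have a2 : ‖G z‖ ^ 3 ≤ 187 / 100 * ‖G z‖ ^ 2 := by
          rw [pow_succ']
          gcongr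
        nlinarith [sq_nonneg (α / ‖z‖ ^ 2)]
      rw [e, norm_mul, h8]
      calc _ ≤ ‖z‖ ^ 2 / α * (124 / 1000 * (α / ‖z‖ ^ 2) ^ 2 + α * b / ‖z‖ ^ 4) := by
            gcongr
            exact (norm_add_le _ _).trans (add_le_add (h7.trans h9) (hGb z hz))
        _ = _ := by
            field_simp
            ring
    · rw [div_le_iff₀ (by positivity)]
      linarith
  have hid : ∀ z ∈ U R, exp (G z) - 1 = α * exp (logS α G z) / z ^ 2 := by
    intro z hz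
    obtain ⟨h0, -, -, h3, h4⟩ := key z hz
    have n := slitPlane_ne_zero (one_add_mem_slitPlane (lt_of_le_of_lt (h3.trans h4) (by norm_num)))
    unfold logS
    rw [exp_add, exp_log n]
    have e1 : exp (G z) = exp (G z / 2) * exp (G z / 2) := by rw [← exp_add, add_halves]
    have e2 : exp (G z / 2) * exp (-(G z / 2)) = 1 := by rw [← exp_add, add_neg_cancel, exp_zero]
    rw [add_sub_cancel]
    field_simp
    linear_combination e1 + e2
  refine ⟨?_, hid, fun z hz => ?_, fun z hz => ?_⟩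
  · unfold logS
    refine (hG.div_const 2).add (DifferentiableOn.clog ?_ fun z hz => ?_)
    · refine (differentiableOn_const _).add (DifferentiableOn.sub_const ?_ _)
      refine DifferentiableOn.div_const ((differentiableOn_id.pow 2).mul ?_) _
      exact (hG.div_const 2).cexp.sub (hG.div_const 2).neg.cexp
    · obtain ⟨-, -, -, h3, h4⟩ := key z hz
      exact one_add_mem_slitPlane (lt_of_le_of_lt (h3.trans h4) (by norm_num))
  · obtain ⟨h0, h1, -, h3, h4⟩ := key z hz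
    have h5 := norm_log_one_add_le_54 ((h3.trans h4).trans (by norm_num))
    have h6 : ‖G z / 2‖ = ‖G z‖ / 2 := by simp
    unfold logS
    refine (norm_add_le _ _).trans ?_
    have h7 : 0 ≤ α / ‖z‖ ^ 2 := by positivity
    have e : (71 / 100 * α + 5 / 4 * b) / ‖z‖ ^ 2 = 11 / 10 * α / ‖z‖ ^ 2 / 2 +
        5 / 4 * ((b + 124 / 1000 * α) / ‖z‖ ^ 2) + 5 / 1000 * (α / ‖z‖ ^ 2) := by ring
    rw [e, h6]
    linarith
  · obtain ⟨h0, -, h2, h3, h4⟩ := key z hz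
    have n := slitPlane_ne_zero (one_add_mem_slitPlane (lt_of_le_of_lt (h3.trans h4) (by norm_num)))
    have hzp : 0 < ‖z‖ := norm_pos_iff.2 h0
    rw [hid z hz]
    unfold logS
    rw [exp_add, exp_log n]
    set ξ := z ^ 2 * (exp (G z / 2) - exp (-(G z / 2))) / α - 1 with hξ
    have e1 : exp (G z) = exp (G z / 2) * exp (G z / 2) := by rw [← exp_add, add_halves]
    have h5 : ‖exp (G z / 2)‖ ≤ 2719 / 1000 := by
      refine (Complex.norm_exp_le_exp_norm _).trans ?_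
      have : ‖G z / 2‖ ≤ 1 := by
        simp only [norm_div, Complex.norm_ofNat]
        linarith
      exact (Real.exp_le_exp.2 this).trans (Real.exp_one_lt_d9.le.trans (by norm_num))
    have h6 : 689 / 1000 ≤ ‖1 + ξ‖ := by
      have := norm_sub_norm_le (1 : ℂ) (-ξ)
      simp only [norm_one, norm_neg, sub_neg_eq_add] at this
      linarith
    rw [e1, norm_div, norm_mul, norm_mul, norm_mul, norm_pow, norm_real, Real.norm_of_nonneg hα.le]
    have e2 : 4 * ‖z‖ ^ 2 / α * (α * (‖exp (G z / 2)‖ * ‖1 + ξ‖) / ‖z‖ ^ 2) =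
        ‖exp (G z / 2)‖ * (4 * ‖1 + ξ‖) := by
      field_simp
    rw [e2]
    gcongr
    linarith

end Pool.Agent.P.MP_e3a7ef_co
end

-- part Pool.Agent.P.MP_e3a7ef_co.Approx
section

namespace Pool.Agent.P.MP_e3a7ef_co

open Complex Metric Set

theorem horner_bound (l : List ℝ) (u : ℂ) (t : ℝ) (h : ‖u‖ ≤ t) :
    ‖l.foldr (fun (c : ℝ) (acc : ℂ) => (c : ℂ) + u * acc) 0‖ ≤
      l.foldr (fun c acc => |c| + t * acc) 0 := by
  induction l with
  | nil => simp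
  | cons c l ih =>
    simp only [List.foldr_cons]
    refine (norm_add_le _ _).trans (add_le_add (by simp) ?_)
    rw [norm_mul]
    exact mul_le_mul h ih (norm_nonneg _) ((norm_nonneg _).trans h)

/-- The Riccati map of the ratio recurrence. -/
noncomputable def ric (y r : ℂ) : ℂ :=
  (3 * y ^ 2 + 5 * y + 1) / (2 * (y + 1) ^ 2) - (y - 1) / (2 * y) / r

/-- Truncated asymptotic expansion of the ratio. -/
noncomputable def rho (y : ℂ) : ℂ := 1 + 1 / y ^ 3 + 6 / y ^ 5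

/-- Analytic approximants of the ratio. -/
noncomputable def app : ℕ → ℂ → ℂ
  | 0, y => rho y
  | m + 1, y => ric y (app m (y - 1))

theorem norm_one_add_ge {w : ℂ} {s : ℝ} (h : ‖w‖ ≤ s) : 1 - s ≤ ‖1 + w‖ := by
  have := norm_sub_norm_le (1 : ℂ) (-w)
  simp only [norm_one, norm_neg, sub_neg_eq_add] at this
  linarith

theorem ne_zero_of_norm {w : ℂ} {s : ℝ} (hs : 0 < s) (h : s ≤ ‖w‖) : w ≠ 0 :=
  norm_pos_iff.1 (lt_of_lt_of_le hs h)

theorem defect_bound {y : ℂ} (hy : 100 < ‖y‖) :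
    ‖ric y (rho (y - 1)) - rho y‖ ≤ 12 / ‖y‖ ^ 6 := by
  have hy0 : y ≠ 0 := ne_zero_of_norm (by norm_num) hy.le
  obtain ⟨u, rfl⟩ : ∃ u : ℂ, y = u⁻¹ := ⟨y⁻¹, (inv_inv y).symm⟩
  have hu0 : u ≠ 0 := fun h => hy0 (by simp [h])
  have hup : 0 < ‖u‖ := norm_pos_iff.2 hu0
  have hu : ‖u‖ ≤ 1 / 100 := by
    rw [norm_inv, lt_inv_comm₀ (by norm_num) hup] at hy
    linarith
  have n1 : 1 + u ≠ 0 := ne_zero_of_norm (by norm_num) (norm_one_add_ge hu)
  have n2 : 1 - u ≠ 0 := by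
    rw [sub_eq_add_neg]
    exact ne_zero_of_norm (by norm_num) (norm_one_add_ge (s := 1 / 100) (by simpa using hu))
  have hN := horner_bound [23, -4, -79, 30, -48, -180, -72] u _ hu
  have hP := horner_bound [-3, 1, 6, -5, 3, 15, 6] u _ hu
  simp only [List.foldr_cons, List.foldr_nil] at hN hP
  norm_num at hN hP
  set N : ℂ := 23 + u * (-4 + u * (-79 + u * (30 + u * (-48 + u * (-180 + -(u * 72)))))) with hNd
  set P : ℂ := -3 + u * (1 + u * (6 + u * (-5 + u * (3 + u * (15 + u * 6))))) with hPd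
  have hD : 97 / 100 - 2 / 10000 ≤ ‖1 + u * P‖ := by
    refine le_trans ?_ (norm_one_add_ge (s := 1 / 100 * (302 / 100)) ?_)
    · norm_num
    · rw [norm_mul]
      gcongr
      linarith
  have n3 : 1 + u * P ≠ 0 := ne_zero_of_norm (by norm_num) hD
  have eD : 1 + u * P = (1 + u) ^ 2 * ((1 - u) ^ 5 + u ^ 3 * (1 - u) ^ 2 + 6 * u ^ 5) := by
    rw [hPd]
    ring
  have n4 : (1 - u) ^ 5 + u ^ 3 * (1 - u) ^ 2 + 6 * u ^ 5 ≠ 0 := fun h => n3 (by rw [eD, h, mul_zero])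
  have e1 : rho (u⁻¹ - 1) = ((1 - u) ^ 5 + u ^ 3 * (1 - u) ^ 2 + 6 * u ^ 5) / (1 - u) ^ 5 := by
    have : u⁻¹ - 1 = (1 - u) / u := by field_simp
    rw [rho, this]
    field_simp
  have e2 : ric u⁻¹ (rho (u⁻¹ - 1)) - rho u⁻¹ = u ^ 6 * N / (2 * (1 + u * P)) := by
    rw [e1, eD, hNd, ric, rho]
    have : u⁻¹ + 1 = (1 + u) / u := by field_simp
    rw [this]
    generalize hDn : (1 - u) ^ 5 + u ^ 3 * (1 - u) ^ 2 + 6 * u ^ 5 = Dn at n4 ⊢
    field_simp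
    rw [← hDn]
    ring
  rw [e2, norm_div, norm_mul, norm_mul, norm_pow, norm_inv, inv_pow, div_inv_eq_mul,
    Complex.norm_two, div_le_iff₀ (by linarith)]
  have : 0 ≤ ‖u‖ ^ 6 := by positivity
  nlinarith

theorem rho_bound {y : ℂ} (hy : 100 < ‖y‖) : ‖rho y - 1‖ ≤ 101 / 100 / ‖y‖ ^ 3 := by
  have e : rho y - 1 = 1 / y ^ 3 + 6 / y ^ 5 := by
    rw [rho]
    ring
  rw [e]
  refine (norm_add_le _ _).trans ?_
  rw [norm_div, norm_div, norm_pow, norm_pow, norm_one, Complex.norm_ofNat]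
  have hp : 0 < ‖y‖ := by linarith
  have h2 : 10000 ≤ ‖y‖ ^ 2 := by nlinarith
  have : 6 / ‖y‖ ^ 5 ≤ 1 / 100 / ‖y‖ ^ 3 := by
    rw [div_le_div_iff₀ (by positivity) (by positivity)]
    have : ‖y‖ ^ 5 = ‖y‖ ^ 2 * ‖y‖ ^ 3 := by ring
    have h3 : 0 < ‖y‖ ^ 3 := by positivity
    nlinarith
  have e2 : 101 / 100 / ‖y‖ ^ 3 = 1 / ‖y‖ ^ 3 + 1 / 100 / ‖y‖ ^ 3 := by ring
  linarith

theorem near_one {y r : ℂ} (hy : 100 < ‖y‖) (h : ‖r - rho y‖ ≤ 27 / ‖y‖ ^ 6) :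
    ‖r - 1‖ ≤ 2 / ‖y‖ ^ 3 := by
  have h1 := rho_bound hy
  have hp : 0 < ‖y‖ := by linarith
  have h3 : 1000000 ≤ ‖y‖ ^ 3 := by
    calc (1000000 : ℝ) = 100 ^ 3 := by norm_num
      _ ≤ _ := by gcongr
  have h2 : 27 / ‖y‖ ^ 6 ≤ 1 / 100 / ‖y‖ ^ 3 := by
    rw [div_le_div_iff₀ (by positivity) (by positivity)]
    have : ‖y‖ ^ 6 = ‖y‖ ^ 3 * ‖y‖ ^ 3 := by ring
    nlinarith
  have e : r - 1 = (r - rho y) + (rho y - 1) := by ring
  have e2 : 2 / ‖y‖ ^ 3 = 101 / 100 / ‖y‖ ^ 3 + 1 / 100 / ‖y‖ ^ 3 + 98 / 100 / ‖y‖ ^ 3 := by ring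
  have : 0 ≤ 98 / 100 / ‖y‖ ^ 3 := by positivity
  rw [e]
  linarith [norm_add_le (r - rho y) (rho y - 1)]

theorem small_cube {y : ℂ} (hy : 100 < ‖y‖) : 2 / ‖y‖ ^ 3 ≤ 1 / 1000 := by
  have h3 : 1000000 ≤ ‖y‖ ^ 3 := by
    calc (1000000 : ℝ) = 100 ^ 3 := by norm_num
      _ ≤ _ := by gcongr
  rw [div_le_iff₀ (by linarith)]
  linarith

theorem norm_ge_of_near {r : ℂ} {s : ℝ} (h : ‖r - 1‖ ≤ s) : 1 - s ≤ ‖r‖ := by
  simpa using norm_one_add_ge h

theorem app_bound (m : ℕ) : ∀ y : ℂ, 100 + m < ‖y‖ → ‖app m y - rho y‖ ≤ 27 / ‖y‖ ^ 6 := by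
  induction m with
  | zero =>
    intro y _
    simp only [app, sub_self, norm_zero]
    positivity
  | succ m ih =>
    intro y hy
    push_cast at hy
    have hm : (0 : ℝ) ≤ m := Nat.cast_nonneg m
    have h0 : ‖y‖ - 1 ≤ ‖y - 1‖ := by simpa using norm_sub_norm_le y 1
    have h1 := ih (y - 1) (by linarith)
    have hy1 : 100 < ‖y - 1‖ := by linarith
    have hy0 : 100 < ‖y‖ := by linarith
    have h2 := norm_ge_of_near ((near_one hy1 h1).trans (small_cube hy1))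
    have h3 := norm_ge_of_near ((near_one (r := rho (y - 1)) hy1
      (by simp only [sub_self, norm_zero]; positivity)).trans (small_cube hy1))
    have n1 := ne_zero_of_norm (by norm_num) h2
    have n2 := ne_zero_of_norm (by norm_num) h3
    have n0 : y ≠ 0 := ne_zero_of_norm (by norm_num) hy0.le
    have e : app (m + 1) y - rho y = (y - 1) / (2 * y) * (app m (y - 1) - rho (y - 1)) /
        (app m (y - 1) * rho (y - 1)) + (ric y (rho (y - 1)) - rho y) := by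
      simp only [app, ric]
      field_simp
      ring
    rw [e]
    refine (norm_add_le _ _).trans ?_
    have h4 := defect_bound hy0
    have h5 : ‖(y - 1) / (2 * y)‖ ≤ 505 / 1000 := by
      rw [norm_div, norm_mul, Complex.norm_two, div_le_iff₀ (by linarith)]
      have : ‖y - 1‖ ≤ ‖y‖ + 1 := by simpa using norm_sub_le y 1
      linarith
    have h6 : 27 / ‖y - 1‖ ^ 6 ≤ 2867 / 100 / ‖y‖ ^ 6 := by
      have : 100 / 101 * ‖y‖ ≤ ‖y - 1‖ := by linarith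
      calc 27 / ‖y - 1‖ ^ 6 ≤ 27 / (100 / 101 * ‖y‖) ^ 6 := by gcongr
        _ = 27 * (101 / 100) ^ 6 / ‖y‖ ^ 6 := by field_simp
        _ ≤ _ := by
          gcongr
          norm_num
    have h7 : ‖(y - 1) / (2 * y) * (app m (y - 1) - rho (y - 1)) /
        (app m (y - 1) * rho (y - 1))‖ ≤ 15 / ‖y‖ ^ 6 := by
      rw [norm_div, norm_mul, norm_mul]
      calc _ ≤ 505 / 1000 * (2867 / 100 / ‖y‖ ^ 6) / ((1 - 1 / 1000) * (1 - 1 / 1000)) := by
            gcongr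
            exact h1.trans h6
        _ = 505 / 1000 * (2867 / 100) / ((1 - 1 / 1000) * (1 - 1 / 1000)) / ‖y‖ ^ 6 := by ring
        _ ≤ _ := by
          gcongr
          norm_num
    have e2 : 27 / ‖y‖ ^ 6 = 15 / ‖y‖ ^ 6 + 12 / ‖y‖ ^ 6 := by ring
    linarith

theorem app_near (m : ℕ) {y : ℂ} (hy : 100 + m < ‖y‖) : ‖app m y - 1‖ ≤ 2 / ‖y‖ ^ 3 := by
  have hm : (0 : ℝ) ≤ m := Nat.cast_nonneg m
  exact near_one (by linarith) (app_bound m y hy)

theorem app_ge (m : ℕ) {y : ℂ} (hy : 100 + m < ‖y‖) : 999 / 1000 ≤ ‖app m y‖ := by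
  have hm : (0 : ℝ) ≤ m := Nat.cast_nonneg m
  have := norm_ge_of_near ((app_near m hy).trans (small_cube (by linarith)))
  linarith

theorem app_diff (m : ℕ) : DifferentiableOn ℂ (app m) (U (100 + m)) := by
  have hne : ∀ (R : ℝ), 0 ≤ R → ∀ z ∈ U R, z ≠ 0 := fun R hR z hz =>
    norm_pos_iff.1 (lt_of_le_of_lt hR hz)
  induction m with
  | zero =>
    have : app 0 = fun y => 1 + 1 / y ^ 3 + 6 / y ^ 5 := by
      funext y
      simp [app, rho]
    rw [this]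
    have h := hne (100 + (0 : ℕ)) (by norm_num)
    exact ((differentiableOn_const _).add ((differentiableOn_const _).div
      (differentiableOn_id.pow 3) fun z hz => pow_ne_zero _ (h z hz))).add
      ((differentiableOn_const _).div (differentiableOn_id.pow 5) fun z hz => pow_ne_zero _ (h z hz))
  | succ m ih =>
    have hm : (0 : ℝ) ≤ m := Nat.cast_nonneg m
    have : app (m + 1) = fun y => (3 * y ^ 2 + 5 * y + 1) / (2 * (y + 1) ^ 2) -
        (y - 1) / (2 * y) / app m (y - 1) := by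
      funext y
      simp [app, ric]
    rw [this]
    have hmem : ∀ z ∈ U (100 + (m + 1 : ℕ)), z - 1 ∈ U (100 + m) := fun z hz => by
      rw [sub_eq_add_neg]
      exact mem_U_add hz (by simp; linarith)
    have h1 : ∀ z ∈ U (100 + (m + 1 : ℕ)), z + 1 ≠ 0 := fun z hz =>
      hne 0 le_rfl _ (mem_U_add hz (by simp; linarith))
    have h0 := hne (100 + (m + 1 : ℕ)) (by positivity)
    have d : DifferentiableOn ℂ (fun y => app m (y - 1)) (U (100 + (m + 1 : ℕ))) :=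
      ih.comp (differentiableOn_id.sub_const 1) hmem
    refine DifferentiableOn.sub (DifferentiableOn.div (by fun_prop) (by fun_prop) fun z hz => ?_)
      (DifferentiableOn.div (DifferentiableOn.div (by fun_prop) (by fun_prop) fun z hz => ?_) d
        fun z hz => ?_)
    · exact mul_ne_zero two_ne_zero (pow_ne_zero _ (h1 z hz))
    · exact mul_ne_zero two_ne_zero (h0 z hz)
    · exact ne_zero_of_norm (by norm_num) (app_ge m (hmem z hz))

theorem rho_diff_bound {z : ℂ} (hz : 100 < ‖z‖) :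
    ‖rho (z + 1 / 2) - rho (z - 1 / 2) + 3 / z ^ 4‖ ≤ 33 / ‖z‖ ^ 6 := by
  have hz0 : z ≠ 0 := ne_zero_of_norm (by norm_num) hz.le
  obtain ⟨u, rfl⟩ : ∃ u : ℂ, z = u⁻¹ := ⟨z⁻¹, (inv_inv z).symm⟩
  have hu0 : u ≠ 0 := fun h => hz0 (by simp [h])
  have hup : 0 < ‖u‖ := norm_pos_iff.2 hu0
  have hu : ‖u‖ ≤ 1 / 100 := by
    rw [norm_inv, lt_inv_comm₀ (by norm_num) hup] at hz
    linarith
  have hD : 1 - 1 / 10000 ≤ ‖1 + -(u ^ 2 / 4)‖ := by
    refine norm_one_add_ge ?_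
    rw [norm_neg, norm_div, norm_pow, Complex.norm_ofNat]
    nlinarith
  have n3 : 1 + -(u ^ 2 / 4) ≠ 0 := ne_zero_of_norm (by norm_num) hD
  have eD : 1 + -(u ^ 2 / 4) = (2 + u) * (2 - u) / 4 := by ring
  have n1 : 2 + u ≠ 0 := fun h => n3 (by rw [eD, h]; simp)
  have n2 : 2 - u ≠ 0 := fun h => n3 (by rw [eD, h]; simp)
  have hM := horner_bound [-33280, 0, -13504, 0, -880, 0, 60, 0, -3] u _ hu
  simp only [List.foldr_cons, List.foldr_nil] at hM
  push_cast at hM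
  set M : ℂ := -33280 + u * (0 + u * (-13504 + u * (0 + u * (-880 + u * (0 + u * (60 +
    u * (0 + u * (-3 + u * 0)))))))) with hMd
  have hM' : ‖M‖ ≤ 33300 := hM.trans (by norm_num)
  have e2 : rho (u⁻¹ + 1 / 2) - rho (u⁻¹ - 1 / 2) + 3 / u⁻¹ ^ 4 =
      u ^ 6 * M / (1024 * (1 + -(u ^ 2 / 4)) ^ 5) := by
    have a1 : u⁻¹ + 1 / 2 = (2 + u) / (2 * u) := by field_simp
    have a2 : u⁻¹ - 1 / 2 = (2 - u) / (2 * u) := by field_simp
    rw [eD, hMd, rho, rho, a1, a2]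
    field_simp
    ring
  have h5 : 99 / 100 ≤ ‖1 + -(u ^ 2 / 4)‖ ^ 5 := by
    calc (99 / 100 : ℝ) ≤ (1 - 1 / 10000) ^ 5 := by norm_num
      _ ≤ _ := by gcongr
  rw [e2, norm_div, norm_mul, norm_mul, norm_pow, norm_pow, norm_inv, inv_pow, div_inv_eq_mul,
    Complex.norm_ofNat, div_le_iff₀ (by linarith)]
  have : 0 ≤ ‖u‖ ^ 6 := by positivity
  nlinarith

/-- The analytic approximant of the level zero ratio. -/
noncomputable def P0 (m : ℕ) (z : ℂ) : ℂ := app m (z + 1 / 2) / app m (z - 1 / 2)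

theorem xi_bound (m : ℕ) {z : ℂ} (hz : 101 + m < ‖z‖) :
    ‖-(z ^ 4 * (P0 m z - 1) / 3) - 1‖ ≤ 30 / ‖z‖ ^ 2 := by
  have hm : (0 : ℝ) ≤ m := Nat.cast_nonneg m
  have hp : ‖z‖ - 1 / 2 ≤ ‖z + 1 / 2‖ := by
    simpa using norm_sub_norm_le z (-(1 / 2))
  have hn : ‖z‖ - 1 / 2 ≤ ‖z - 1 / 2‖ := by
    simpa using norm_sub_norm_le z (1 / 2)
  have hzp : 0 < ‖z‖ := by linarith
  have h6 : ∀ w : ℂ, ‖z‖ - 1 / 2 ≤ ‖w‖ → 27 / ‖w‖ ^ 6 ≤ 28 / ‖z‖ ^ 6 := by
    intro w hw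
    have : 199 / 200 * ‖z‖ ≤ ‖w‖ := by linarith
    calc 27 / ‖w‖ ^ 6 ≤ 27 / (199 / 200 * ‖z‖) ^ 6 := by gcongr
      _ = 27 * (200 / 199) ^ 6 / ‖z‖ ^ 6 := by field_simp
      _ ≤ _ := by
        gcongr
        norm_num
  have a1 := (app_bound m (z + 1 / 2) (by linarith)).trans (h6 _ hp)
  have a2 := (app_bound m (z - 1 / 2) (by linarith)).trans (h6 _ hn)
  have a3 := rho_diff_bound (z := z) (by linarith)
  have a4 := app_ge m (y := z - 1 / 2) (by linarith)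
  have a5 : ‖app m (z - 1 / 2) - 1‖ ≤ 3 / 100 / ‖z‖ ^ 2 := by
    refine (app_near m (y := z - 1 / 2) (by linarith)).trans ?_
    have : 199 / 200 * ‖z‖ ≤ ‖z - 1 / 2‖ := by linarith
    calc 2 / ‖z - 1 / 2‖ ^ 3 ≤ 2 / (199 / 200 * ‖z‖) ^ 3 := by gcongr
      _ = 2 * (200 / 199) ^ 3 / ‖z‖ / ‖z‖ ^ 2 := by field_simp
      _ ≤ _ := by
        refine div_le_div_of_nonneg_right ?_ (by positivity)
        rw [div_le_iff₀ hzp]
        linarith
  have n1 := ne_zero_of_norm (by norm_num) a4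
  have n0 : z ≠ 0 := norm_pos_iff.1 hzp
  have e : -(z ^ 4 * (P0 m z - 1) / 3) - 1 = -((app m (z - 1 / 2) - 1) + z ^ 4 / 3 *
      ((rho (z + 1 / 2) - rho (z - 1 / 2) + 3 / z ^ 4) + ((app m (z + 1 / 2) - rho (z + 1 / 2)) -
        (app m (z - 1 / 2) - rho (z - 1 / 2))))) / app m (z - 1 / 2) := by
    rw [P0]
    generalize app m (z - 1 / 2) = r1 at n1 ⊢
    generalize app m (z + 1 / 2) = r2
    generalize rho (z - 1 / 2) = r3
    generalize rho (z + 1 / 2) = r4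
    field_simp
    ring
  have b1 : ‖(rho (z + 1 / 2) - rho (z - 1 / 2) + 3 / z ^ 4) + ((app m (z + 1 / 2) -
      rho (z + 1 / 2)) - (app m (z - 1 / 2) - rho (z - 1 / 2)))‖ ≤ 89 / ‖z‖ ^ 6 := by
    have e2 : 89 / ‖z‖ ^ 6 = 33 / ‖z‖ ^ 6 + (28 / ‖z‖ ^ 6 + 28 / ‖z‖ ^ 6) := by ring
    rw [e2]
    exact (norm_add_le _ _).trans (add_le_add a3 ((norm_sub_le _ _).trans (add_le_add a1 a2)))
  rw [e, norm_div, norm_neg, div_le_iff₀ (by linarith)]
  refine (norm_add_le _ _).trans ?_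
  rw [norm_mul, norm_div, norm_pow, Complex.norm_ofNat]
  calc _ ≤ 3 / 100 / ‖z‖ ^ 2 + ‖z‖ ^ 4 / 3 * (89 / ‖z‖ ^ 6) := by gcongr
    _ = (3 / 100 + 89 / 3) / ‖z‖ ^ 2 := by field_simp
    _ ≤ 30 * (999 / 1000) / ‖z‖ ^ 2 := by
      gcongr
      norm_num
    _ = 30 / ‖z‖ ^ 2 * (999 / 1000) := by ring
    _ ≤ _ := by gcongr

theorem level_zero (m : ℕ) {R : ℝ} (hR : 101 + m ≤ R) :
    ∃ G L : ℂ → ℂ, DifferentiableOn ℂ G (U R) ∧ DifferentiableOn ℂ L (U R) ∧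
      (∀ z ∈ U R, exp (G z) = P0 m z) ∧
      (∀ z ∈ U R, exp (G z) - 1 = -3 * exp (L z) / z ^ 4) ∧
      (∀ z ∈ U R, ‖L z‖ ≤ 38 / ‖z‖ ^ 2) ∧ (∀ z ∈ U R, ‖G z‖ ≤ 4 / ‖z‖ ^ 4) ∧
      (∀ z ∈ U R, ‖exp (G z)‖ ≤ 2 / 5 * ‖z‖ ^ 4 * ‖exp (G z) - 1‖) ∧
      ∀ z ∈ U R, ‖exp (G z)‖ ≤ 1 - 2 / ‖z‖ ^ 4 ∨ z.im ≠ 0 := by
  have hm : (0 : ℝ) ≤ m := Nat.cast_nonneg m
  have key : ∀ z ∈ U R, 101 < ‖z‖ ∧ ‖-(z ^ 4 * (P0 m z - 1) / 3) - 1‖ ≤ 30 / ‖z‖ ^ 2 ∧
      30 / ‖z‖ ^ 2 ≤ 1 / 100 ∧ ‖P0 m z - 1‖ ≤ 303 / 100 / ‖z‖ ^ 4 ∧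
      303 / 100 / ‖z‖ ^ 4 ≤ 1 / 100 ∧ 297 / 100 / ‖z‖ ^ 4 ≤ ‖P0 m z - 1‖ := by
    intro z hz
    have hz' : R < ‖z‖ := hz
    have h1 := xi_bound m (z := z) (by linarith)
    have hzp : 0 < ‖z‖ := by linarith
    have n0 : z ≠ 0 := norm_pos_iff.1 hzp
    have h2 : 10000 ≤ ‖z‖ ^ 2 := by nlinarith
    have h3 : 30 / ‖z‖ ^ 2 ≤ 1 / 100 := by
      rw [div_le_iff₀ (by positivity)]
      linarith
    have e : P0 m z - 1 = -3 / z ^ 4 * (1 + (-(z ^ 4 * (P0 m z - 1) / 3) - 1)) := by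
      field_simp
      ring
    have e2 : ‖P0 m z - 1‖ = 3 / ‖z‖ ^ 4 * ‖1 + (-(z ^ 4 * (P0 m z - 1) / 3) - 1)‖ := by
      conv_lhs => rw [e]
      rw [norm_mul, norm_div, norm_neg, norm_pow, Complex.norm_ofNat]
    have h4 := norm_one_add_ge (h1.trans h3)
    have h5 := norm_add_le 1 (-(z ^ 4 * (P0 m z - 1) / 3) - 1)
    rw [norm_one] at h5
    have h6 : 0 < 3 / ‖z‖ ^ 4 := by positivity
    refine ⟨by linarith, h1, h3, ?_, ?_, ?_⟩
    · calc _ = _ := e2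
        _ ≤ 3 / ‖z‖ ^ 4 * (101 / 100) := by
          gcongr
          linarith
        _ = _ := by ring
    · rw [div_le_iff₀ (by positivity)]
      nlinarith
    · calc _ = 3 / ‖z‖ ^ 4 * (1 - 1 / 100) := by ring
        _ ≤ _ := by
          rw [e2]
          gcongr
  have dP : DifferentiableOn ℂ (P0 m) (U R) := by
    have m1 : ∀ z ∈ U R, z + 1 / 2 ∈ U (100 + m) := fun z hz => mem_U_add hz (by simp; linarith)
    have m2 : ∀ z ∈ U R, z - 1 / 2 ∈ U (100 + m) := fun z hz => by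
      rw [sub_eq_add_neg]
      exact mem_U_add hz (by simp; linarith)
    exact ((app_diff m).comp (differentiableOn_id.add_const _) m1).div
      ((app_diff m).comp (differentiableOn_id.sub_const _) m2)
      fun z hz => ne_zero_of_norm (by norm_num) (app_ge m (m2 z hz))
  have s1 : ∀ z ∈ U R, 1 + (P0 m z - 1) ∈ slitPlane := fun z hz => by
    obtain ⟨-, -, -, h1, h2, -⟩ := key z hz
    exact one_add_mem_slitPlane (by linarith)
  have s2 : ∀ z ∈ U R, 1 + (-(z ^ 4 * (P0 m z - 1) / 3) - 1) ∈ slitPlane := fun z hz => by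
    obtain ⟨-, h1, h2, -⟩ := key z hz
    exact one_add_mem_slitPlane (by linarith)
  have hE : ∀ z ∈ U R, exp (log (1 + (P0 m z - 1))) = P0 m z := fun z hz => by
    rw [exp_log (slitPlane_ne_zero (s1 z hz)), add_sub_cancel]
  refine ⟨fun z => log (1 + (P0 m z - 1)), fun z => log (1 + (-(z ^ 4 * (P0 m z - 1) / 3) - 1)),
    DifferentiableOn.clog ((dP.sub_const 1).const_add 1) s1,
    DifferentiableOn.clog (DifferentiableOn.const_add _ (DifferentiableOn.sub_const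
      (DifferentiableOn.neg (((differentiableOn_id.pow 4).mul (dP.sub_const 1)).div_const 3)) _))
      s2, hE, fun z hz => ?_, fun z hz => ?_, fun z hz => ?_, fun z hz => ?_, fun z hz => ?_⟩
  · have n0 : z ≠ 0 := ne_zero_of_norm (by norm_num) (key z hz).1.le
    rw [hE z hz, exp_log (slitPlane_ne_zero (s2 z hz))]
    field_simp
    ring
  · obtain ⟨-, h1, h2, -⟩ := key z hz
    refine (norm_log_one_add_le_54 (by linarith)).trans ?_
    have : 0 ≤ 1 / ‖z‖ ^ 2 := by positivity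
    have e1 : 30 / ‖z‖ ^ 2 = 30 * (1 / ‖z‖ ^ 2) := by ring
    have e2 : 38 / ‖z‖ ^ 2 = 38 * (1 / ‖z‖ ^ 2) := by ring
    linarith
  · obtain ⟨-, -, -, h1, h2, -⟩ := key z hz
    refine (norm_log_one_add_le_54 (by linarith)).trans ?_
    have : 0 ≤ 1 / ‖z‖ ^ 4 := by positivity
    have e1 : 303 / 100 / ‖z‖ ^ 4 = 303 / 100 * (1 / ‖z‖ ^ 4) := by ring
    have e2 : 4 / ‖z‖ ^ 4 = 4 * (1 / ‖z‖ ^ 4) := by ring
    linarith
  · obtain ⟨h0, -, -, h1, h2, h3⟩ := key z hz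
    rw [hE z hz]
    have h4 := norm_add_le 1 (P0 m z - 1)
    rw [norm_one, add_sub_cancel] at h4
    calc ‖P0 m z‖ ≤ 2 / 5 * ‖z‖ ^ 4 * (297 / 100 / ‖z‖ ^ 4) := by
          have : 2 / 5 * ‖z‖ ^ 4 * (297 / 100 / ‖z‖ ^ 4) = 2 / 5 * (297 / 100) := by
            field_simp
          linarith
      _ ≤ _ := by gcongr
  · obtain ⟨h0, h1, h2, -⟩ := key z hz
    by_cases him : z.im = 0
    · left
      have n0 : z ≠ 0 := ne_zero_of_norm (by norm_num) h0.le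
      have hz4 : z ^ 4 = ((‖z‖ ^ 4 : ℝ) : ℂ) := by
        have : z = (z.re : ℂ) := by
          apply Complex.ext <;> simp [him]
        rw [this, norm_real, Real.norm_eq_abs, Even.pow_abs (by decide)]
        push_cast
        rfl
      have e : P0 m z = ((1 - 3 / ‖z‖ ^ 4 : ℝ) : ℂ) -
          3 / z ^ 4 * (-(z ^ 4 * (P0 m z - 1) / 3) - 1) := by
        have : ((1 - 3 / ‖z‖ ^ 4 : ℝ) : ℂ) = 1 - 3 / z ^ 4 := by
          rw [hz4]
          push_cast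
          rfl
        rw [this]
        field_simp
        ring
      have h4 : 3 / ‖z‖ ^ 4 ≤ 1 := by
        rw [div_le_iff₀ (by positivity)]
        have : (1 : ℝ) * 3 ≤ ‖z‖ ^ 4 := by
          calc (1 : ℝ) * 3 ≤ 101 ^ 4 := by norm_num
            _ ≤ _ := by gcongr
        linarith
      rw [hE z hz, e]
      refine (norm_sub_le _ _).trans ?_
      rw [norm_real, Real.norm_of_nonneg (by linarith), norm_mul, norm_div, norm_pow,
        Complex.norm_ofNat]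
      have h5 : 0 ≤ 1 / ‖z‖ ^ 4 := by positivity
      have e1 : 3 / ‖z‖ ^ 4 = 3 * (1 / ‖z‖ ^ 4) := by ring
      have e2 : 2 / ‖z‖ ^ 4 = 2 * (1 / ‖z‖ ^ 4) := by ring
      have h6 := h1.trans h2
      rw [e1, e2]
      nlinarith
    · exact Or.inr him

end Pool.Agent.P.MP_e3a7ef_co
end

-- part Pool.Agent.P.MP_e3a7ef_co.Seq
section

namespace Pool.Agent.P.MP_e3a7ef_co

/-- The normalised ratio of consecutive terms. -/
noncomputable def rr : ℕ → ℝ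
  | 0 => 1 / 2
  | y + 1 => (3 * ((y : ℝ) + 1) ^ 2 + 5 * ((y : ℝ) + 1) + 1) / (2 * ((y : ℝ) + 1 + 1) ^ 2) -
      ((y : ℝ) + 1 - 1) / (2 * ((y : ℝ) + 1)) / rr y

/-- The ratios `x i * x (i + 2) / x (i + 1) ^ 2` along the iteration. -/
noncomputable def QQ : ℕ → ℕ → ℝ
  | 0, i => rr (i + 2) / rr (i + 1)
  | k + 1, i => QQ k (i + 1) ^ 2 * (QQ k i - 1) * (QQ k (i + 2) - 1) / (QQ k (i + 1) - 1) ^ 2

theorem rr_one : rr 1 = 9 / 8 := by norm_num [rr]

theorem rr_bounds (y : ℕ) : 1 ≤ rr (y + 1) ∧ rr (y + 1) ≤ 9 / 8 := by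
  induction y with
  | zero => rw [zero_add, rr_one]; norm_num
  | succ y ih =>
    obtain ⟨h1, h2⟩ := ih
    rw [rr]
    push_cast
    set t : ℝ := (y : ℝ) + 1 + 1 with ht
    have t2 : 2 ≤ t := by
      have : (0 : ℝ) ≤ y := Nat.cast_nonneg y
      linarith
    have hb : 0 ≤ (t - 1) / (2 * t) := by
      apply div_nonneg <;> linarith
    constructor
    · have a1 : (t - 1) / (2 * t) / rr (y + 1) ≤ (t - 1) / (2 * t) := div_le_self hb h1
      have a2 : 1 + (t - 1) / (2 * t) ≤ (3 * t ^ 2 + 5 * t + 1) / (2 * (t + 1) ^ 2) := by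
        rw [add_div' _ _ _ (by linarith), div_le_div_iff₀ (by linarith) (by positivity)]
        nlinarith
      linarith
    · have a1 : (t - 1) / (2 * t) / (9 / 8) ≤ (t - 1) / (2 * t) / rr (y + 1) := by gcongr
      have a2 : (3 * t ^ 2 + 5 * t + 1) / (2 * (t + 1) ^ 2) ≤ 9 / 8 + (t - 1) / (2 * t) / (9 / 8) := by
        have e : 9 / 8 + (t - 1) / (2 * t) / (9 / 8) = (113 * t - 32) / (72 * t) := by
          field_simp
          ring
        rw [e, div_le_div_iff₀ (by positivity) (by linarith)]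
        nlinarith [sq_nonneg (t - 2), mul_nonneg (sub_nonneg.2 t2) (sq_nonneg t)]
      linarith

theorem rr_pos (y : ℕ) : 0 < rr y := by
  rcases y with _ | y
  · norm_num [rr]
  · linarith [(rr_bounds y).1]

theorem flf_ratio (y : ℕ) : 0 < flf y ∧ flf (y + 1) = 16 * rr y * flf y := by
  induction y with
  | zero => norm_num [flf, rr]
  | succ y ih =>
    obtain ⟨h1, h2⟩ := ih
    have h3 := rr_pos y
    refine ⟨by rw [h2]; positivity, ?_⟩
    rw [flf, rr, h2]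
    have : (0 : ℝ) ≤ y := Nat.cast_nonneg y
    field_simp
    ring

theorem ratio_step {y q x : ℕ → ℝ} {s : ℝ} (hs : s ≠ 0) (hy : ∀ i, 0 < y i)
    (hq : ∀ i, q i = y i * y (i + 2) / y (i + 1) ^ 2) (hx : ∀ i, x i = s * (y (i + 1) ^ 2 * (q i - 1)))
    (hne : ∀ i, q i - 1 ≠ 0) (i : ℕ) :
    q (i + 1) ^ 2 * (q i - 1) * (q (i + 2) - 1) / (q (i + 1) - 1) ^ 2 =
      x i * x (i + 2) / x (i + 1) ^ 2 := by
  have h1 := hq (i + 1)
  have n1 := hne (i + 1)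
  have n2 := (hy (i + 2)).ne'
  rw [hx, hx, hx]
  nth_rewrite 1 [h1]
  simp only [add_assoc, Nat.reduceAdd]
  field_simp

theorem reduction (h0 : ∀ i, QQ 0 i < 1) (h1 : ∀ k i, 1 < QQ (k + 1) i) (k i : ℕ) :
    0 < opL^[k] (fun n => flf (n + 2) ^ 2 - flf (n + 1) * flf (n + 3)) i := by
  set W : ℕ → ℝ := fun n => flf (n + 2) ^ 2 - flf (n + 1) * flf (n + 3) with hW
  have hq0 : ∀ i, QQ 0 i = flf (i + 1) * flf (i + 2 + 1) / flf (i + 1 + 1) ^ 2 := by
    intro i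
    have a1 := flf_ratio (i + 1)
    have a2 := flf_ratio (i + 2)
    have a3 := (rr_pos (i + 1)).ne'
    have a4 := a1.1.ne'
    rw [QQ, a2.2, show i + 2 = i + 1 + 1 from rfl, a1.2]
    field_simp
  have hx0 : ∀ i, W i = -1 * (flf (i + 1 + 1) ^ 2 * (QQ 0 i - 1)) := by
    intro i
    have := (flf_ratio (i + 1 + 1)).1.ne'
    rw [hq0]
    simp only [hW]
    field_simp
    ring
  have key : ∀ k, (∀ i, 0 < opL^[k] W i) ∧
      ∀ i, QQ (k + 1) i = opL^[k] W i * opL^[k] W (i + 2) / opL^[k] W (i + 1) ^ 2 := by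
    intro k
    induction k with
    | zero =>
      refine ⟨fun i => ?_, fun i => ?_⟩
      · have := (flf_ratio (i + 1 + 1)).1
        have := h0 i
        rw [Function.iterate_zero_apply, hx0, neg_one_mul, ← mul_neg, neg_sub]
        exact mul_pos (by positivity) (by linarith)
      · rw [QQ]
        exact ratio_step (y := fun i => flf (i + 1)) (by norm_num) (fun i => (flf_ratio _).1) hq0
          hx0 (fun i => (sub_neg.2 (h0 i)).ne) i
    | succ k ih =>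
      have hx : ∀ i, opL^[k + 1] W i = 1 * (opL^[k] W (i + 1) ^ 2 * (QQ (k + 1) i - 1)) := by
        intro i
        have := (ih.1 (i + 1)).ne'
        rw [Function.iterate_succ_apply', ih.2, opL]
        field_simp
      refine ⟨fun i => ?_, fun i => ?_⟩
      · rw [hx, one_mul]
        exact mul_pos (pow_pos (ih.1 _) 2) (sub_pos.2 (h1 k i))
      · rw [QQ]
        exact ratio_step one_ne_zero ih.1 ih.2 hx (fun i => (sub_pos.2 (h1 k i)).ne') i
  exact (key k).1 i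

theorem QQ_ge {k i : ℕ} (h0 : 3 ≤ QQ k i) (h1 : 1 < QQ k (i + 1)) (h2 : 3 ≤ QQ k (i + 2)) :
    3 ≤ QQ (k + 1) i := by
  rw [QQ, le_div_iff₀ (pow_pos (by linarith) 2)]
  have a1 : 2 * 2 ≤ (QQ k i - 1) * (QQ k (i + 2) - 1) :=
    mul_le_mul (by linarith) (by linarith) (by norm_num) (by linarith)
  have a2 : (QQ k (i + 1) - 1) ^ 2 ≤ QQ k (i + 1) ^ 2 := by nlinarith
  rw [mul_assoc]
  nlinarith [sq_nonneg (QQ k (i + 1))]

theorem rr_app (m : ℕ) : ∀ y : ℕ, 100 + m < y → ‖(rr y : ℂ) - app m y‖ ≤ (1 / 2) ^ m / 4 := by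
  induction m with
  | zero =>
    intro y hy
    obtain ⟨y, rfl⟩ : ∃ y', y = y' + 1 := ⟨y - 1, by omega⟩
    have hy' : (100 : ℝ) + (0 : ℕ) < ‖((y + 1 : ℕ) : ℂ)‖ := by
      rw [Complex.norm_natCast]
      exact_mod_cast hy
    have h1 := (app_near 0 hy').trans (small_cube (by simpa using hy'))
    obtain ⟨h2, h3⟩ := rr_bounds y
    have h4 : ‖(rr (y + 1) : ℂ) - 1‖ ≤ 1 / 8 := by
      rw [← Complex.ofReal_one, ← Complex.ofReal_sub, Complex.norm_real, Real.norm_eq_abs, abs_le]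
      constructor <;> linarith
    have e : (rr (y + 1) : ℂ) - app 0 (y + 1 : ℕ) = (rr (y + 1) - 1) - (app 0 (y + 1 : ℕ) - 1) := by
      ring
    rw [e]
    refine (norm_sub_le _ _).trans ?_
    linarith
  | succ m ih =>
    intro y hy
    obtain ⟨y, rfl⟩ : ∃ y', y = y' + 1 := ⟨y - 1, by omega⟩
    have h1 := ih y (by omega)
    have hy0 : (100 : ℝ) + m < y := by exact_mod_cast (by omega : 100 + m < y)
    have hm : (0 : ℝ) ≤ m := Nat.cast_nonneg m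
    have hy' : (100 : ℝ) + m < ‖(y : ℂ)‖ := by rwa [Complex.norm_natCast]
    have h2 := norm_ge_of_near (app_near m hy')
    rw [Complex.norm_natCast] at h2
    have h3 : (y : ℝ) / (y + 1) ≤ ‖app m y‖ := by
      refine le_trans ?_ h2
      have a1 : 2 / (y : ℝ) ^ 3 ≤ 1 / (y + 1) := by
        have : (100 : ℝ) ≤ y := by linarith
        rw [div_le_div_iff₀ (pow_pos (by linarith) 3) (by positivity)]
        have : (100 : ℝ) * 100 ≤ y * y := by gcongr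
        nlinarith
      have a2 : (y : ℝ) / (y + 1) = 1 - 1 / (y + 1) := by
        field_simp
        ring
      linarith
    have h4 : 1 ≤ rr y := by
      obtain ⟨y', rfl⟩ : ∃ y', y = y' + 1 := ⟨y - 1, by omega⟩
      exact (rr_bounds y').1
    have yp : (0 : ℝ) < y := by linarith
    have n1 : app m y ≠ 0 := ne_zero_of_norm (by positivity) h3
    have n2 : (rr y : ℂ) ≠ 0 := Complex.ofReal_ne_zero.2 (by linarith)
    have n3 : (y : ℂ) + 1 ≠ 0 := by exact_mod_cast (by omega : y + 1 ≠ 0)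
    have e : (rr (y + 1) : ℂ) - app (m + 1) (y + 1 : ℕ) =
        y / (2 * (y + 1)) * (rr y - app m y) / (rr y * app m y) := by
      rw [rr, app, ric]
      push_cast
      rw [add_sub_cancel_right]
      generalize (3 * ((y : ℂ) + 1) ^ 2 + 5 * (y + 1) + 1) / (2 * (y + 1 + 1) ^ 2) = A
      field_simp
      ring
    have h5 : ‖(y : ℂ) / (2 * (y + 1))‖ = y / (y + 1) / 2 := by
      have : (y : ℂ) / (2 * (y + 1)) = ((y / (y + 1) / 2 : ℝ) : ℂ) := by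
        push_cast
        field_simp
      rw [this, Complex.norm_real, Real.norm_of_nonneg (by positivity)]
    rw [e, norm_div, norm_mul, norm_mul, h5, Complex.norm_real, Real.norm_of_nonneg (by linarith)]
    calc _ ≤ (y : ℝ) / (y + 1) / 2 * ((1 / 2) ^ m / 4) / (1 * (y / (y + 1))) := by gcongr
      _ = _ := by
        rw [pow_succ]
        field_simp

theorem QQ_zero_app (m i : ℕ) (hi : 100 + m < i + 1) :
    ‖(QQ 0 i : ℂ) - P0 m (i + 3 / 2)‖ ≤ (1 / 2) ^ m * ‖P0 m (i + 3 / 2)‖ := by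
  have h1 := rr_app m (i + 1) hi
  have h2 := rr_app m (i + 2) (by omega)
  have e1 : (i : ℂ) + 3 / 2 + 1 / 2 = (i + 2 : ℕ) := by
    push_cast
    ring
  have e2 : (i : ℂ) + 3 / 2 - 1 / 2 = (i + 1 : ℕ) := by
    push_cast
    ring
  have g1 := app_ge m (y := (i + 1 : ℕ)) (by rw [Complex.norm_natCast]; exact_mod_cast hi)
  have g2 := app_ge m (y := (i + 2 : ℕ))
    (by rw [Complex.norm_natCast]; exact_mod_cast (by omega : 100 + m < i + 2))
  have r1 := (rr_bounds i).1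
  have n1 := ne_zero_of_norm (by norm_num) g1
  have n2 := ne_zero_of_norm (by norm_num) g2
  have n3 : (rr (i + 1) : ℂ) ≠ 0 := Complex.ofReal_ne_zero.2 (by linarith)
  rw [P0, e1, e2, QQ, Complex.ofReal_div]
  generalize app m (i + 1 : ℕ) = a1 at *
  generalize app m (i + 2 : ℕ) = a2 at *
  have e : (rr (i + 2) : ℂ) / rr (i + 1) - a2 / a1 =
      ((rr (i + 2) - a2) * (a1 / a2) - (rr (i + 1) - a1)) / rr (i + 1) * (a2 / a1) := by
    field_simp
    ring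
  rw [e, norm_mul]
  gcongr
  have hp : (1 / 2 : ℝ) ^ m ≤ 1 := pow_le_one₀ (by norm_num) (by norm_num)
  have hp0 : (0 : ℝ) ≤ (1 / 2) ^ m := by positivity
  have b1 : ‖a1‖ ≤ 11 / 8 := by
    have := norm_sub_le (rr (i + 1) : ℂ) (rr (i + 1) - a1)
    rw [sub_sub_cancel, Complex.norm_real, Real.norm_of_nonneg (by linarith)] at this
    linarith [(rr_bounds i).2]
  have b2 : ‖a1 / a2‖ ≤ 2 := by
    rw [norm_div, div_le_iff₀ (by linarith)]
    linarith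
  rw [norm_div, Complex.norm_real, Real.norm_of_nonneg (by linarith), div_le_iff₀ (by linarith)]
  refine (norm_sub_le _ _).trans ?_
  rw [norm_mul]
  have b3 : ‖(rr (i + 2) : ℂ) - a2‖ * ‖a1 / a2‖ ≤ (1 / 2) ^ m / 4 * 2 := by gcongr
  nlinarith

end Pool.Agent.P.MP_e3a7ef_co
end

-- part Pool.Agent.P.MP_e3a7ef_co.Sched
section

namespace Pool.Agent.P.MP_e3a7ef_co

/-- Leading coefficients of the levels. -/
noncomputable def al (j : ℕ) : ℝ := 3 * 2 ^ j - 2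

/-- Table of relative radii. -/
def thT : List ℕ := [80, 112, 153, 204, 265, 331, 399, 466, 528, 584, 633, 675, 710, 740, 764, 784,
  801, 815, 827, 837, 846, 855, 864, 873, 882, 891]

/-- Table of error constants. -/
def bT : List ℕ := [30, 464, 3431, 14339, 38804, 78908, 130576, 186892, 243830, 297007, 344849,
  386586, 423023, 452192, 478041, 499061, 515571, 529700, 541523, 552907, 563387, 572082, 579911,
  587359, 594678, 602000]

/-- Relative radii. -/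
noncomputable def th (j : ℕ) : ℝ :=
  if j < 26 then (thT.getD j 0 : ℝ) / 1000 else 19 / 20 - 1 / 20 * (4 / 5) ^ (j - 26)

/-- Error constants. -/
noncomputable def bb (j : ℕ) : ℝ := if j < 26 then (bT.getD j 0 : ℝ) else al j / 100

theorem al_succ (j : ℕ) : al (j + 1) = 2 * al j + 2 := by
  simp only [al]
  ring

theorem al_pos (j : ℕ) : 1 ≤ al j := by
  have : (1 : ℝ) ≤ 2 ^ j := one_le_pow₀ (by norm_num)
  simp only [al]
  linarith

theorem al_ge {j : ℕ} (hj : 1 ≤ j) : 2 * 2 ^ j ≤ al j := by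
  have : (2 : ℝ) ^ 1 ≤ 2 ^ j := pow_le_pow_right₀ (by norm_num) hj
  simp only [al]
  linarith

theorem al_mono {j k : ℕ} (h : j ≤ k) : al j ≤ al k := by
  have : (2 : ℝ) ^ j ≤ 2 ^ k := pow_le_pow_right₀ (by norm_num) h
  simp only [al]
  linarith

theorem th_tail (d : ℕ) : th (26 + d) = 19 / 20 - 1 / 20 * (4 / 5) ^ d := by simp [th]

theorem bb_tail (d : ℕ) : bb (26 + d) = al (26 + d) / 100 := by simp [bb]

theorem tail_pow (d : ℕ) : 0 < ((4 : ℝ) / 5) ^ d ∧ ((4 : ℝ) / 5) ^ d ≤ 1 ∧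
    2 ^ 27 ≤ al (26 + d) * (((4 : ℝ) / 5) ^ d) ^ 2 := by
  refine ⟨by positivity, pow_le_one₀ (by norm_num) (by norm_num), ?_⟩
  have h1 := al_ge (j := 26 + d) (by omega)
  have h2 : (1 : ℝ) ≤ 2 ^ d * ((4 / 5) ^ d) ^ 2 := by
    rw [← pow_mul, mul_comm d 2, pow_mul, ← mul_pow]
    exact one_le_pow₀ (by norm_num)
  calc (2 : ℝ) ^ 27 ≤ 2 ^ 27 * (2 ^ d * ((4 / 5) ^ d) ^ 2) := le_mul_of_one_le_right (by positivity) h2
    _ = 2 * 2 ^ (26 + d) * ((4 / 5) ^ d) ^ 2 := by ring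
    _ ≤ _ := by gcongr

theorem th_facts (j : ℕ) : 0 < th j ∧ th j ≤ th (j + 1) ∧ th j ≤ 19 / 20 ∧ 0 ≤ bb j := by
  rcases lt_or_ge j 26 with h | h
  · interval_cases j <;> norm_num [th, bb, thT, bT]
  · obtain ⟨d, rfl⟩ := Nat.exists_eq_add_of_le h
    obtain ⟨h1, h2, -⟩ := tail_pow d
    have := al_pos (26 + d)
    rw [add_assoc, th_tail, th_tail, bb_tail, pow_succ]
    refine ⟨by linarith, by linarith, by linarith, by linarith⟩

theorem sched_zero : th 0 = 2 / 25 ∧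
    ∃ D : ℝ, 101 / 100 * th 1 ^ 4 ≤ D * ((th 1 - th 0) ^ 2 * th 0 ^ 2) ∧
      8 + (4 + 2 * D * 38) ≤ al 1 * bb 1 := by
  refine ⟨by norm_num [th, thT], 101 / 100 * th 1 ^ 4 / ((th 1 - th 0) ^ 2 * th 0 ^ 2), ?_, ?_⟩ <;>
    norm_num [th, bb, thT, bT, al]

theorem sched_step {j : ℕ} (hj : 1 ≤ j) :
    ∃ D : ℝ, 101 / 100 * th (j + 1) ^ 4 ≤ D * ((th (j + 1) - th j) ^ 2 * th j ^ 2) ∧
      2 * (al j * bb j) + (2 + 2 * D * (71 / 100 * al j + 5 / 4 * bb j)) ≤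
        al (j + 1) * bb (j + 1) := by
  rcases lt_or_ge j 26 with h | h
  · refine ⟨101 / 100 * th (j + 1) ^ 4 / ((th (j + 1) - th j) ^ 2 * th j ^ 2), ?_⟩
    interval_cases j <;> norm_num [th, bb, thT, bT, al]
  · obtain ⟨d, rfl⟩ := Nat.exists_eq_add_of_le h
    obtain ⟨h1, h2, h3⟩ := tail_pow d
    have h4 := al_ge (j := 26 + d) (by omega)
    have h5 : (2 : ℝ) ^ 26 ≤ 2 ^ (26 + d) := pow_le_pow_right₀ (by norm_num) (by omega)
    refine ⟨al (26 + d) / 100, ?_, ?_⟩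
    · have h6 := (th_facts (26 + d + 1)).2.2.1
      have h7 := (th_facts (26 + d + 1)).1
      have h8 : th (26 + d + 1) - th (26 + d) = 1 / 100 * (4 / 5) ^ d := by
        rw [add_assoc, th_tail, th_tail, pow_succ]
        ring
      have h9 : 9 / 10 ≤ th (26 + d) := by
        rw [th_tail]
        linarith
      rw [h8]
      calc 101 / 100 * th (26 + d + 1) ^ 4 ≤ 101 / 100 * (19 / 20) ^ 4 := by gcongr
        _ ≤ 2 ^ 27 / 1000000 * (9 / 10) ^ 2 := by norm_num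
        _ ≤ al (26 + d) * ((4 / 5) ^ d) ^ 2 / 1000000 * th (26 + d) ^ 2 := by gcongr
        _ = _ := by ring
    · rw [add_assoc, bb_tail, bb_tail, ← add_assoc 26 d 1, al_succ]
      nlinarith

theorem sched_b (j : ℕ) {x : ℝ} (hx : 8192 ≤ x) (h : al j ≤ 26 / 10 * x ^ 2) :
    bb j ≤ (th j * x) ^ 2 / 10 := by
  have hx2 : 8192 ^ 2 ≤ x ^ 2 := by gcongr
  rcases lt_or_ge j 26 with hj | hj
  · have : bb j ≤ th j ^ 2 * 8192 ^ 2 / 10 := by
      interval_cases j <;> norm_num [th, bb, thT, bT]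
    rw [mul_pow]
    refine this.trans ?_
    gcongr
  · obtain ⟨d, rfl⟩ := Nat.exists_eq_add_of_le hj
    obtain ⟨h1, h2, -⟩ := tail_pow d
    have h9 : 9 / 10 ≤ th (26 + d) := by
      rw [th_tail]
      linarith
    rw [bb_tail, mul_pow]
    calc al (26 + d) / 100 ≤ (9 / 10) ^ 2 * x ^ 2 / 10 := by nlinarith
      _ ≤ _ := by gcongr

theorem sched_a (j : ℕ) {x : ℝ} (hx : 8192 ≤ x) (h : al j ≤ 126 / 100 * x ^ 2) :
    al j ≤ 17 / 10 * (th j * x) ^ 2 ∧ 101 ≤ (th (j + 1) * x - th j * x) ^ 2 := by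
  have hx2 : 8192 ^ 2 ≤ x ^ 2 := by gcongr
  rw [← sub_mul, mul_pow, mul_pow]
  rcases lt_or_ge j 26 with hj | hj
  · have h1 : (al j ≤ 17 / 10 * (th j ^ 2 * 8192 ^ 2) ∨ 126 / 100 ≤ 17 / 10 * th j ^ 2) ∧
        101 ≤ (th (j + 1) - th j) ^ 2 * 8192 ^ 2 := by
      interval_cases j <;> norm_num [th, al, thT]
    refine ⟨?_, h1.2.trans (by gcongr)⟩
    rcases h1.1 with h2 | h2
    · exact h2.trans (by gcongr)
    · nlinarith
  · obtain ⟨d, rfl⟩ := Nat.exists_eq_add_of_le hj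
    obtain ⟨h1, h2, h3⟩ := tail_pow d
    have h9 : 9 / 10 ≤ th (26 + d) := by
      rw [th_tail]
      linarith
    have h8 : th (26 + d + 1) - th (26 + d) = 1 / 100 * (4 / 5) ^ d := by
      rw [add_assoc, th_tail, th_tail, pow_succ]
      ring
    have h10 : (9 / 10) ^ 2 ≤ th (26 + d) ^ 2 := by gcongr
    refine ⟨by nlinarith, ?_⟩
    rw [h8]
    have h11 : al (26 + d) * ((4 / 5) ^ d) ^ 2 ≤ 126 / 100 * x ^ 2 * ((4 / 5) ^ d) ^ 2 := by gcongr
    nlinarith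

/-- Exponents of the admissible relative errors. -/
def FF : ℕ → ℕ
  | 0 => 10
  | s + 1 => FF s + s + 5

theorem FF_ge (s : ℕ) : s + 10 ≤ FF s := by
  induction s with
  | zero => simp [FF]
  | succ s ih => simp only [FF]; omega

theorem FF_bound (d : ℕ) : 8 * (27 + d) ≤ FF (26 + d) + 2 * (27 + d) + 2 + 101 ∧
    625 * (FF (26 + d) + 2 * (27 + d) + 2 + 101) ^ 2 ≤ 4 * 2 ^ (26 + d) := by
  induction d with
  | zero => decide
  | succ d ih =>
    obtain ⟨h1, h2⟩ := ih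
    have e : FF (26 + (d + 1)) = FF (26 + d) + (26 + d) + 5 := rfl
    refine ⟨by omega, ?_⟩
    rw [e, ← add_assoc 26 d 1, pow_succ 2]
    generalize FF (26 + d) = a at *
    generalize 2 ^ (26 + d) = P at *
    have h3 : 5 * (a + (26 + d) + 5 + 2 * (27 + (d + 1)) + 2 + 101) ≤
        7 * (a + 2 * (27 + d) + 2 + 101) := by omega
    have h4 := Nat.pow_le_pow_left h3 2
    rw [mul_pow, mul_pow] at h4
    omega

end Pool.Agent.P.MP_e3a7ef_co
end
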