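import Pool.Agent.K.MP_e3a7ef_co.C2

namespace Pool.Agent.P.MP_e3a7ef_co

theorem blk0 : check 448 (0 + 1) 9 0 500 = true := by decide +kernel
theorem blk1 : check 448 (44 + 1) 8 456 500 = true := by decide +kernel
theorem blk2 : check 448 (544 + 1) 8 456 500 = true := by decide +kernel
theorem blk3 : check 448 (1044 + 1) 8 456 500 = true := by decide +kernel
theorem blk4 : check 448 (1544 + 1) 8 456 500 = true := by decide +kernel
theorem blk5 : check 448 (2044 + 1) 8 456 500 = true := by decide +kernel
theorem blk6 : check 448 (2544 + 1) 8 456 500 = true := by decide +kernel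
theorem blk7 : check 448 (3044 + 1) 8 456 500 = true := by decide +kernel
theorem blk8 : check 448 (3544 + 1) 8 456 500 = true := by decide +kernel
theorem blk9 : check 448 (4044 + 1) 8 456 500 = true := by decide +kernel
theorem blk10 : check 448 (4544 + 1) 8 456 500 = true := by decide +kernel
theorem blk11 : check 448 (5044 + 1) 8 456 500 = true := by decide +kernel
theorem blk12 : check 448 (5544 + 1) 8 456 500 = true := by decide +kernel
theorem blk13 : check 448 (6044 + 1) 8 456 500 = true := by decide +kernel
theorem blk14 : check 448 (6544 + 1) 8 456 500 = true := by decide +kernel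
theorem blk15 : check 448 (7044 + 1) 8 456 500 = true := by decide +kernel
theorem blk16 : check 448 (7544 + 1) 8 456 166 = true := by decide +kernel

end Pool.Agent.P.MP_e3a7ef_co
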